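import Pool.Agent.H8.TX.Targets
import Pool.Agent.H18.HX.All
import Pool.Agent.H18.VP.Cor2
import Pool.Agent.H18.VP.HNX
import Pool.Agent.H18.VP.PRX
import Pool.Agent.H18.VP.INC
import Pool.Agent.H18.VP.INB
import Pool.Agent.H18.VP.BIN
import Pool.Agent.H18.VP.PRM
import Pool.Agent.H18.VP.LFX
import Pool.Agent.H8.HX.PEG
import Pool.Agent.H63.VP.PLC

/-!
# Row COL: points over a line with totally invariant orbit closure
(line version of `Pool.Agent.H18.VP.pf_COR`)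
-/

set_option autoImplicit false
set_option linter.unusedSectionVars false

open MvPolynomial
open Pool.Agent.H12.ZD (pmap)
open Pool.Agent.H18.HIT Pool.Agent.H18.HX Pool.Agent.H18.VZ

namespace Pool.Agent.H18.VP.H33COL

/-- the core of the construction for the points over a line -/
theorem core_line (hALX : T_ALX) (hPEG : T_PEG) (hPRX : T_PRX Qb)
    (hHNX : T_HNX Qb) (hNRX : T_NRX) (hINC : T_INC Qb) (hHIL : Pool.Agent.H8.TX.T_HIL)
    {N r d E : ℕ} {P b : Po (N + 1) Qb}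
    {F : Tup (N + 1) Qb} {p : Pl Qb} {P₀ : Po (N + 1) (O p)} {k : ℕ} {a : Fin (N + 1) → O p}
    {H : Tup (N + 1) (O p)} (hP : Hyp P r) (h : Flo P b F d p P₀ k a H)
    (hs : Slf (Ideal.span {P}) F) (hc : Cvi (Ideal.span {P}) (it F k) E)
    {θ Δ : Po (N + 1) Qb} (hB : Bas P (it F k) E θ Δ) {g : Po N Qb} (hg : g ≠ 0) :
    ∃ y : Fin N → ℤ,
      eval (fun i => cO a (Fin.succ i) + ((p : ℕ) : Qb) ^ 2 * (y i : Qb)) g ≠ 0 ∧
      ∀ c₁ : Po N Qb, c₁ ≠ 0 → ∃ b' : Fin N → ℤ, eval (Pool.Agent.H18.HIT.cZ b') c₁ ≠ 0 ∧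
      ∀ (s : Finset Qb) (M₀ : ℕ), ∃ (t : ℤ) (z : Fin (N + 1) → O p), (M₀ : ℤ) < |t| ∧
        (∀ i : Fin N, cO z i.succ = ((y i + t * b' i : ℤ) : Qb)) ∧
        eval (cO z) (pp P a) = 0 ∧
        eval (cO z) (aeval (lt (cO a) (((p : ℕ) : Qb) ^ 2)) (up g)) ≠ 0 ∧
        (∀ c : Fin E → Po (N + 1) Qb,
          (∑ i : Fin E, (aeval (lt (cO a) (((p : ℕ) : Qb) ^ 2)) θ) ^ (i : ℕ) *
            aeval (flQ p H) (c i)) ∈ van (flQ p H) (cO z) →
          ∀ i, c i ∈ van (flQ p H) (cO z)) ∧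
        ∀ z' : Fin (N + 1) → Qb, eval z' (pp P a) = 0 → (∀ i : Fin N, z' i.succ = cO z i.succ) →
          ∃ σ : Qb ≃+* Qb, (∀ q ∈ s, σ q = q) ∧ (∀ i, σ (cO a i) = cO a i) ∧
            ∀ i, σ (cO z i) = z' i := by
  classical
  obtain ⟨L, hL⟩ : ∃ L : Po (N + 1) Qb →ₐ[Qb] Po (N + 1) Qb,
    L = aeval (lt (cO a) (((p : ℕ) : Qb) ^ 2)) := ⟨_, rfl⟩
  have hLd : ∀ q, pp P a ∣ L q ↔ P ∣ q := fun q => by rw [hL]; exact pp_dvd P a q
  have hprime := isPrime_span (pp_irr hP.irr a)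
  have hpr := (pp_irr hP.irr a).prime
  have hsG := slf_pp h hs
  obtain ⟨hind, halg⟩ := hALX N Qb (pp P a) (flQ p H) (pp_irr hP.irr a) (pp_mon hP.mon a) hsG
  have hind' : ∀ q : Po N Qb, aeval (fun j : Fin N => flQ p H j.succ) q ∈ Ideal.span {pp P a} →
      q = 0 := fun q hq => hind q (Ideal.mem_span_singleton.mp hq)
  have halg' : ∀ i, ∃ Q : Polynomial (Po N Qb), Q ≠ 0 ∧
      evg (fun j : Fin N => flQ p H j.succ) (X i) Q ∈ Ideal.span {pp P a} := by
    intro i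
    obtain ⟨Q, hQ, hQ'⟩ := halg i
    exact ⟨Q, hQ, Ideal.mem_span_singleton.mpr hQ'⟩
  obtain ⟨θ₁, Φ, Δ₁, R, hmon, -, hroot, hΔ₁, hcoord⟩ := hPEG (N + 1) N Qb (Ideal.span {pp P a})
    (fun j => flQ p H j.succ) hind' halg'
  obtain ⟨cG, hcG, hcG'⟩ := cvi_pp h hc
  have hcc : ¬ pp P a ∣ cG * L Δ := by
    intro hd
    rcases hpr.dvd_or_dvd hd with hd | hd
    · exact hcG (Ideal.mem_span_singleton.mpr hd)
    · exact hB.ne ((hLd Δ).mp hd)
  obtain ⟨c', A, hc'0, hc'⟩ := hNRX N Qb (pp P a) (cG * L Δ) (pp_irr hP.irr a)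
    (pp_mon hP.mon a) hcc
  -- `g` in the coordinates of the disc
  set gα : Po N Qb := aeval (fun j : Fin N => C (cO a j.succ) + C (((p : ℕ) : Qb) ^ 2) * X j) g
    with hgα
  have hgαe : ∀ w : Fin N → Qb, eval w gα =
      eval (fun i => cO a (Fin.succ i) + ((p : ℕ) : Qb) ^ 2 * w i) g := by
    intro w
    have h1 : ((eval w).comp (aeval (fun j : Fin N => C (cO a j.succ) +
        C (((p : ℕ) : Qb) ^ 2) * X j) : Po N Qb →ₐ[Qb] Po N Qb).toRingHom) =
        eval (fun i => cO a (Fin.succ i) + ((p : ℕ) : Qb) ^ 2 * w i) := by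
      apply MvPolynomial.ringHom_ext
      · intro q
        simp
      · intro i
        simp
    exact DFunLike.congr_fun h1 g
  have hgα0 : gα ≠ 0 := by
    intro h0
    apply hg
    apply MvPolynomial.funext
    intro w
    have h1 := hgαe (fun i => (((p : ℕ) : Qb) ^ 2)⁻¹ * (w i - cO a i.succ))
    rw [h0, map_zero] at h1
    have h2 : (fun i : Fin N => cO a (Fin.succ i) + ((p : ℕ) : Qb) ^ 2 *
        ((((p : ℕ) : Qb) ^ 2)⁻¹ * (w i - cO a i.succ))) = w := by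
      funext i
      rw [← mul_assoc, mul_inv_cancel₀ (p_ne p)]
      ring
    rw [h2] at h1
    rw [map_zero]
    exact h1.symm
  obtain ⟨y, hy, hyb⟩ := hHIL (N + 1) N (Ideal.span {pp P a})
    (fun j => flQ p H j.succ)
    (Finset.univ.image (flQ p H)) (c' * Δ₁ * gα) hind' halg'
    (mul_ne_zero (mul_ne_zero hc'0 hΔ₁) hgα0)
  rw [map_mul] at hy
  refine ⟨y, ?_, fun c₁ hc₁ => ?_⟩
  · have h1 := right_ne_zero_of_mul hy
    rw [hgαe] at h1
    exact h1
  obtain ⟨b', hb', hbt⟩ := hyb c₁ hc₁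
  refine ⟨b', hb', fun s M₀ => ?_⟩
  obtain ⟨t, ht, hwt, hgal⟩ := hbt (s ∪ Finset.univ.image (cO a)) M₀
  set w : Fin N → ℤ := fun i => y i + t * b' i with hw
  rw [map_mul, map_mul] at hwt
  obtain ⟨u, hu⟩ := hHNX N p P₀ a h.mon h.zero h.der (fun j => ((w j : ℤ) : O p))
  set z : Fin (N + 1) → O p := Fin.cons u (fun j => ((w j : ℤ) : O p)) with hz
  have hzs : ∀ j : Fin N, cO z j.succ = (w j : Qb) := by
    intro j
    change ((z j.succ : O p) : Qb) = _
    rw [hz, Fin.cons_succ]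
    exact map_intCast (O p).subtype (w j)
  have hzs' : (fun j : Fin N => cO z j.succ) = Pool.Agent.H18.HIT.cZ w := funext hzs
  have hzP : eval (cO z) (pp P a) = 0 := by
    rw [eval_pp, ← h.map]
    have h1 : (fun i => cO a i + ((p : ℕ) : Qb) ^ 2 * cO z i) =
        cO (fun i => a i + ((p : ℕ) : O p) ^ 2 * z i) := by
      funext i
      change _ = (O p).subtype (a i + ((p : ℕ) : O p) ^ 2 * z i)
      rw [map_add, map_mul, map_pow, coe_p]
      rfl
    rw [h1, eval_cO, hu]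
    rfl
  have hzer : Zer (Ideal.span {pp P a}) (cO z) := zer_span.mpr hzP
  have hle : ∀ c ∈ Ideal.span {pp P a}, c ∈ van (flQ p H) (cO z) := by
    intro c hc n
    exact zer_iterate hsG.inv hzer n c hc
  obtain ⟨x, hx, hxvan⟩ := hPRX (N + 1) N p H Fin.succ z θ₁ Φ Δ₁ R h.hp hmon (hle _ hroot)
    (fun i => hle _ (hcoord i)) (by
      rw [hzs']
      exact right_ne_zero_of_mul (left_ne_zero_of_mul hwt))
  have hc'w : eval (Pool.Agent.H18.HIT.cZ w) c' ≠ 0 :=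
    left_ne_zero_of_mul (left_ne_zero_of_mul hwt)
  -- the values at the points of the hypersurface over `w`
  have hover : ∀ z' : Fin (N + 1) → Qb, eval z' (pp P a) = 0 →
      (∀ i : Fin N, z' i.succ = (w i : Qb)) → eval z' cG ≠ 0 ∧ eval z' (L Δ) ≠ 0 := by
    intro z' hz'P hz'w
    have hcall : eval z' (cG * L Δ) ≠ 0 := by
      intro h0
      apply hc'w
      obtain ⟨B, hB⟩ := hc'
      have h1 := congrArg (eval z') hB
      rw [map_sub, map_mul (eval z') (cG * L Δ) A,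
        map_mul (eval z') (pp P a) B, h0, hz'P, zero_mul, zero_mul, sub_zero, up,
        eval_rename] at h1
      have h2 : (z' ∘ Fin.succ) = Pool.Agent.H18.HIT.cZ w := funext hz'w
      rw [h2] at h1
      exact h1
    rw [map_mul] at hcall
    exact ⟨left_ne_zero_of_mul hcall, right_ne_zero_of_mul hcall⟩
  obtain ⟨hcGz, hΔz⟩ := hover (cO z) hzP hzs
  obtain ⟨S, hS, hS'⟩ := hcG' (cO z) hzer hcGz
  have hxG : pmap (flQ p H) (cO x) = cO z := by
    rw [← hx]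
    exact pmap_cO (fl p H) x
  have hxz : Zer (Ideal.span {pp P a}) (cO x) :=
    zer_span.mpr (hxvan _ (hle _ (Ideal.mem_span_singleton_self _)))
  -- transport from `x` to any other preimage of a point over `w`
  have hgalG : ∀ x' z' : Fin (N + 1) → Qb, Zer (Ideal.span {pp P a}) x' →
      pmap (flQ p H) x' = z' → (∀ i : Fin N, z' i.succ = (w i : Qb)) →
      ∃ σ : Qb ≃+* Qb, (∀ i, MvPolynomial.map (σ : Qb →+* Qb) (flQ p H i) =
        flQ p H i) ∧ (∀ q ∈ s, σ q = q) ∧ (∀ i, σ (cO a i) = cO a i) ∧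
        (∀ i, σ (cO z i) = z' i) ∧ ∀ i, σ (cO x i) = x' i := by
    intro x' z' h1 h2 hz'w
    obtain ⟨σ, hσ1, hσa, hσ2⟩ := hgal (cO x) x' hxz h1
      (fun j => by
        have h3 : eval (cO x) (flQ p H j.succ) = cO z j.succ := congrFun hxG j.succ
        rw [h3]
        exact hzs j)
      (fun j => by
        have h3 : eval x' (flQ p H j.succ) = z' j.succ := congrFun h2 j.succ
        rw [h3]
        exact hz'w j)
    have hσG : ∀ i, MvPolynomial.map (σ : Qb →+* Qb) (flQ p H i) = flQ p H i :=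
      fun i => hσ1 _ (Finset.mem_image_of_mem _ (Finset.mem_univ i))
    refine ⟨σ, hσG, fun q hq => hσa q (Finset.mem_union_left _ hq),
      fun i => hσa _ (Finset.mem_union_right _ (Finset.mem_image_of_mem _ (Finset.mem_univ i))),
      fun i => ?_, hσ2⟩
    have h3 : cO z i = eval (cO x) (flQ p H i) := (congrFun hxG i).symm
    have h4 : x' = fun i => (σ : Qb →+* Qb) (cO x i) := funext fun i => (hσ2 i).symm
    have h5 : σ (eval (cO x) (flQ p H i)) = eval x' (flQ p H i) := by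
      have h6 := Pool.Agent.H8.HZ.eval_map_apply (σ : Qb →+* Qb) (flQ p H i) (cO x)
      rw [hσG, ← h4] at h6
      exact h6.symm
    rw [h3, h5]
    exact congrFun h2 i
  have hgal' : ∀ P' ∈ S, ∃ σ : Qb ≃+* Qb, (∀ i, MvPolynomial.map (σ : Qb →+* Qb) (flQ p H i) =
      flQ p H i) ∧ (∀ i, σ (cO z i) = cO z i) ∧ ∀ i, σ (cO x i) = P' i := by
    intro P' hP'
    obtain ⟨h1, h2⟩ := hS' P' hP'
    obtain ⟨σ, hσ1, -, -, hσ2, hσ3⟩ := hgalG P' (cO z) h1 h2 hzs
    exact ⟨σ, hσ1, hσ2, hσ3⟩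
  -- `θ` separates the fibre
  have hLev : ∀ (q : Po (N + 1) Qb) (y : Fin (N + 1) → Qb), eval y (L q) =
      eval (fun i => cO a i + ((p : ℕ) : Qb) ^ 2 * y i) q := by
    intro q y
    rw [hL, eval_lt]
  have hsep : ∀ x ∈ S, ∀ y ∈ S, eval x (L θ) = eval y (L θ) → x = y := by
    intro x hx y hy hxy
    obtain ⟨hx1, hx2⟩ := hS' x hx
    obtain ⟨hy1, hy2⟩ := hS' y hy
    have hxP := (eval_pp P a x).mp (zer_span.mp hx1)
    have hyP := (eval_pp P a y).mp (zer_span.mp hy1)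
    rw [hLev, hLev] at hxy
    have hTx : pmap (it F k) (fun i => cO a i + ((p : ℕ) : Qb) ^ 2 * x i) =
        fun i => cO a i + ((p : ℕ) : Qb) ^ 2 * cO z i := by
      rw [pmap_it, conj_pt h, hx2]
    have hTy : pmap (it F k) (fun i => cO a i + ((p : ℕ) : Qb) ^ 2 * y i) =
        fun i => cO a i + ((p : ℕ) : Qb) ^ 2 * cO z i := by
      rw [pmap_it, conj_pt h, hy2]
    rw [hLev] at hΔz
    funext l
    obtain ⟨M, c, Q, hQ⟩ := hB.gen (X l)
    have e1 := congrArg (eval (fun i => cO a i + ((p : ℕ) : Qb) ^ 2 * x i)) hQ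
    have e2 := congrArg (eval (fun i => cO a i + ((p : ℕ) : Qb) ^ 2 * y i)) hQ
    rw [map_sub, map_mul, map_pow, eval_aeval, map_sum, map_mul, hxP, zero_mul, hTx,
      eval_X] at e1
    rw [map_sub, map_mul, map_pow, eval_aeval, map_sum, map_mul, hyP, zero_mul, hTy,
      eval_X] at e2
    simp only [map_mul, map_pow, eval_aeval] at e1 e2
    rw [hTx] at e1
    rw [hTy, ← hxy] at e2
    have e3 := sub_eq_zero.mp e1
    have e4 := sub_eq_zero.mp e2
    rw [← e4] at e3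
    have e5 := mul_left_cancel₀ (pow_ne_zero M hΔz) e3
    exact mul_left_cancel₀ (p_ne p) (add_left_cancel e5)
  refine ⟨t, z, ht, hzs, hzP, ?_, ?_, ?_⟩
  · have h1 : eval (cO z) (aeval (lt (cO a) (((p : ℕ) : Qb) ^ 2)) (up g)) =
        eval (Pool.Agent.H18.HIT.cZ w) gα := by
      rw [eval_lt, up, eval_rename, hgαe, ← hzs']
      rfl
    rw [h1]
    exact right_ne_zero_of_mul hwt
  · rw [← hL]
    exact str2 (flQ p H) (cO z) (cO x) (L θ) E S hS hxG
      (fun n => by rw [flQ_iterate]; exact jac_fl_ne p H _)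
      (jac_fl_ne p H x) hxvan
      (fun h' q hhq hh => hINC (N + 1) p H z h' q h.hp hhq hh) hgal' hsep
  · intro z' hz'P hz'z
    have hz'w : ∀ i : Fin N, z' i.succ = (w i : Qb) := fun i => by rw [hz'z, hzs]
    obtain ⟨hcGz', -⟩ := hover z' hz'P hz'w
    obtain ⟨S₁, hS₁, hS₁'⟩ := hcG' z' (zer_span.mpr hz'P) hcGz'
    have hne : S₁.Nonempty := Finset.card_pos.1 (by rw [hS₁]; exact hB.pos)
    obtain ⟨x', hx'⟩ := hne
    obtain ⟨h1, h2⟩ := hS₁' x' hx'
    obtain ⟨σ, -, hσs, hσa, hσz, -⟩ := hgalG x' z' h1 h2 hz'w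
    exact ⟨σ, hσs, hσa, hσz⟩

theorem ftd : Ftd Qb := by
  refine ⟨∅, ?_⟩
  exact Algebra.IsAlgebraic.tower_top (K := ℚ) _

theorem col (hHIL : Pool.Agent.H8.TX.T_HIL) : Pool.Agent.H8.TX.T_COL := by
  have hina : Pool.Agent.H18.VP.T_INA Qb := Pool.Agent.H18.VP.pf_INA
  have hinb : Pool.Agent.H18.VP.T_INB Qb :=
    Pool.Agent.H18.VP.pf_INB Pool.Agent.H18.VP.pf_BIN
  have hinc : Pool.Agent.H18.VP.T_INC Qb := Pool.Agent.H18.VP.pf_INC hina hinb
  have hprm : Pool.Agent.H18.VP.T_PRM Qb := Pool.Agent.H18.VP.pf_PRM hina hinc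
  have hprx : Pool.Agent.H18.VP.T_PRX Qb := Pool.Agent.H18.VP.pf_PRX hina
  have hgdx : Pool.Agent.H18.VP.T_GDX Qb := Pool.Agent.H18.VP.pf_GDX Pool.Agent.H63.VP.pf_PLC
    ftd All.wpo Pool.Agent.H30.HX.pf_IND Pool.Agent.H49.HX.pf_MPW
    All.fry All.nds Pool.Agent.H18.VP.pf_LFX
  intro N r d P b F hN hP hrd hF hs hb hPb
  obtain ⟨F', W, hF', hcong, hW, hPW⟩ := All.chh N r d Qb P F hN hP hrd hF hs
  have hcong' : ∀ i, F' i - F i ∈ Ideal.span {P} := fun i =>
    Ideal.mem_span_singleton.mpr (hcong i)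
  have hs' : Slf (Ideal.span {P}) F' := hs.congr hcong'
  obtain ⟨p, P₀, k, a, H, h⟩ := exists_flo hgdx All.jcx W hN hP hF' hs' hW hPW hb hPb
  refine ⟨k, fun i => cO a i.succ, ((p : ℕ) : Qb) ^ 2, h.hk, p_ne p,
    fun E θ Δ hB hcv g hg => ?_⟩
  have hitc := it_sub_mem hs hcong' k
  obtain ⟨y, hy, hyb⟩ := core_line All.alx Pool.Agent.H8.HX.pf_PEG hprx
    Pool.Agent.H18.VP.pf_HNX All.nrx hinc hHIL hP h hs'
    (hcv.congr hitc) (bas_congr hP.irr hitc hB) hg
  refine ⟨y, hy, fun c₁ hc₁ => ?_⟩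
  obtain ⟨b', hb', hbt⟩ := hyb c₁ hc₁
  refine ⟨b', hb', fun s M₀ => ?_⟩
  obtain ⟨t, z, ht, hzw, hz, hgz, hind, hgal⟩ := hbt s M₀
  have hz' := (eval_pp P a (cO z)).mp hz
  set x : Fin (N + 1) → Qb := fun i => cO a i + ((p : ℕ) : Qb) ^ 2 * cO z i with hx
  have horb : ∀ n, (pmap F)^[n] x = (pmap F')^[n] x := fun n =>
    (iterate_congr hs.inv hcong' (zer_span.mpr hz') n).symm
  have horb2 : ∀ n, (pmap (it F k))^[n] x =
      fun i => cO a i + ((p : ℕ) : Qb) ^ 2 * (pmap (flQ p H))^[n] (cO z) i := by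
    intro n
    rw [pmap_it_iterate, horb, hx, conj_orb h]
  have hvan : ∀ c, c ∈ van (it F k) x ↔
      aeval (lt (cO a) (((p : ℕ) : Qb) ^ 2)) c ∈ van (flQ p H) (cO z) := by
    intro c
    rw [mem_van, mem_van]
    refine forall_congr' fun n => ?_
    rw [horb2, eval_lt]
  have hprime : (van (it F k) x).IsPrime := by
    have h1 : van (it F k) x = (van (flQ p H) (cO z)).comap
        (aeval (lt (cO a) (((p : ℕ) : Qb) ^ 2)) : Po (N + 1) Qb →ₐ[Qb] Po (N + 1) Qb) := by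
      ext c
      rw [hvan, Ideal.mem_comap]
    have h2 := hprm (N + 1) p H z h.hp
    rw [h1]
    exact Ideal.comap_isPrime _ _
  refine ⟨t, x, ht, fun i => ?_, hz', fun n => ?_, ?_, hprime,
    ⟨fun c hc => van_aeval hc, fun c hc i => ?_⟩, fun x' hx'P hx'x => ?_⟩
  · rw [hx]
    simp only
    rw [hzw]
  · rw [horb]
    exact h.avo n z
  · rw [eval_lt] at hgz
    exact hgz
  · rw [hvan]
    refine hind (fun i => aeval (lt (cO a) (((p : ℕ) : Qb) ^ 2)) (c i)) ?_ i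
    rw [hvan, map_sum] at hc
    have h1 : ∀ i : Fin E, aeval (lt (cO a) (((p : ℕ) : Qb) ^ 2))
        (θ ^ (i : ℕ) * aeval (it F k) (c i)) -
        (aeval (lt (cO a) (((p : ℕ) : Qb) ^ 2)) θ) ^ (i : ℕ) *
          aeval (flQ p H) (aeval (lt (cO a) (((p : ℕ) : Qb) ^ 2)) (c i)) ∈
        van (flQ p H) (cO z) := by
      intro i
      rw [conj_aeval h, map_mul, map_pow, ← mul_sub, ← map_sub]
      apply Ideal.mul_mem_left
      have h2 : aeval (it F k) (c i) - aeval (it F' k) (c i) ∈ Ideal.span {P} := by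
        have h3 := aeval_congr hitc (c i)
        rw [← neg_mem_iff, neg_sub]
        exact h3
      rw [← hvan]
      intro n
      exact zer_iterate (hs.it k).inv (zer_span.mpr hz') n _ h2
    have h2 := Ideal.sum_mem (van (flQ p H) (cO z)) (t := Finset.univ) fun i _ => h1 i
    rw [Finset.sum_sub_distrib] at h2
    have h3 := Ideal.sub_mem _ hc h2
    rw [sub_sub_cancel] at h3
    exact h3
  · -- transport
    set z' : Fin (N + 1) → Qb := fun i => (((p : ℕ) : Qb) ^ 2)⁻¹ * (x' i - cO a i) with hz'd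
    have hzx : ∀ i, cO a i + ((p : ℕ) : Qb) ^ 2 * z' i = x' i := by
      intro i
      rw [hz'd]
      simp only
      rw [← mul_assoc, mul_inv_cancel₀ (p_ne p)]
      ring
    have hz'P : eval z' (pp P a) = 0 := by
      rw [eval_pp]
      have h1 : (fun i => cO a i + ((p : ℕ) : Qb) ^ 2 * z' i) = x' := funext hzx
      rw [h1]
      exact hx'P
    have hz'z : ∀ i : Fin N, z' i.succ = cO z i.succ := by
      intro i
      have h1 := hx'x i
      rw [← hzx, hx] at h1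
      exact mul_left_cancel₀ (p_ne p) (add_left_cancel h1)
    obtain ⟨σ, hσs, hσa, hσz⟩ := hgal z' hz'P hz'z
    refine ⟨σ, hσs, fun i => ?_⟩
    rw [← hzx, hx]
    simp only
    rw [map_add, map_mul, map_pow, map_natCast, hσa, hσz]

end Pool.Agent.H18.VP.H33COL

namespace Pool.Agent.H33.TX

theorem pf_COL (hHIL : Pool.Agent.H8.TX.T_HIL) : Pool.Agent.H8.TX.T_COL :=
  Pool.Agent.H18.VP.H33COL.col hHIL

end Pool.Agent.H33.TX
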